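import Pool.Agent.H92.EM.TC
import Pool.Agent.H14.EQ.K2

/-!
# Board MP_75a732_an (emd_modules), row MKI

Copy of row EKI (helper25) for several totally invariant hyperplanes.
-/

set_option autoImplicit false

namespace Pool.Agent.H17.EM

open scoped BigOperators ComplexConjugate ContDiff ComplexOrder
open MeasureTheory
open Pool.Agent.H92.EQ Pool.Agent.H92.EM Pool.Agent.H80.EQ Pool.Agent.H14.EQ

theorem mk_CrL_meas (m : ℕ) {k : ℕ} (F : Fin (k + 1) → MvPolynomial (Fin (k + 1)) ℂ) (d : ℕ)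
    (r : ℝ) : MeasurableSet (CrL m F d r) := by
  have h1 : Continuous fun z : Fin (k + 1) → ℂ => MvPolynomial.eval z (lowP m F) :=
    MvPolynomial.continuous_eval _
  have h2 : Continuous fun z : Fin (k + 1) → ℂ => nrm z := by
    unfold nrm nsq
    exact Real.continuous_sqrt.comp
      (continuous_finsetSum _ fun i _ => (continuous_norm.comp (continuous_apply i)).pow 2)
  have h3 : Measurable fun z : Fin (k + 1) → ℂ => nv (lowP m F) ((k + 1 - m) * (d - 1)) z := by
    unfold nv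
    exact h1.norm.measurable.div (h2.pow _).measurable
  exact measurableSet_lt h3 measurable_const

/-- Row MKI. -/
theorem pf_MKI (hKG : T_KG2) (hG4 : T_G4) (hKA : T_KA) (hKH : T_KH) (hD12 : T_D12)
    (hP1 : T_P1) (hP3 : T_P3)
    (hP5 : T_P5) (hD7 : T_D7) (hL3 : T_L3) (hL6 : T_L6) : T_MKI := by
  intro m k d p q l i F K S f h r a b hd hpq hE hS hKS hmS hf hh ha hb hHit hf1 hf2
  subst hpq
  have hF : IsH d F := hE.isH
  have hN : p + q + 1 = p + q + 1 := rfl
  obtain ⟨hG, hGr, -⟩ := hKA (p + q + 1) d F hd hF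
  have hell : Pot (ell : (Fin (p + q + 1) → ℂ) → ℝ) := (hL3 (p + q + 1)).1
  have hd1 : 1 ≤ d := by omega
  have hd0 : (0 : ℝ) < d := by exact_mod_cast hd1
  have hN0 : 0 < (p + q + 1) := by omega
  have hS1 : ProjForm (Sn F d i S) := (hD12 (p + q + 1) d F hd1 hF 0 i).2.2.2.2 p S hS
  have hΦ : IsH (d ^ l) (iter F l) := (hD12 (p + q + 1) d F hd1 hF 0 l).1
  -- the degree formula
  obtain ⟨Bf, hBf0, hBf⟩ := (hL6 (p + q + 1)).1 f hf.smooth.continuousOn (fun t z ht hz =>
    hf.hom (t : ℂ) z (by exact_mod_cast ht.ne') hz)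
  have hB : ∀ z, |f z| ≤ max Bf |f 0| := by
    intro z
    by_cases hz : z = 0
    · rw [hz]
      exact le_max_right _ _
    · exact (hBf z hz).trans (le_max_left _ _)
  have g4 := hG4 (p + q + 1) p q (d ^ l) (iter F l) (Sn F d i S) (fun _ => Gn F d i) (fun _ => 1) f
    (max Bf |f 0|) hN (Nat.one_le_pow _ _ (by omega)) hΦ hS1 (fun _ => ki_LH (hG i))
    (ki_meas hf.smooth.continuousOn) hB hf.hom
  have e1 : pair (fun z => f (ev (iter F l) z)) (Sn F d (i + l) S)
      (fun _ : Fin q => Gn F d (i + l)) =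
      ((1 / (d : ℝ) ^ l) ^ q * ((d : ℝ) ^ (p * l))⁻¹) *
        pair (fun z => f (ev (iter F l) z)) (pull (iter F l) (Sn F d i S))
          (fun (_ : Fin q) z => Gn F d i (ev (iter F l) z)) := by
    refine ki_congr hN0 _ ?_
    intro z hz
    have q1 : Q (Sn F d (i + l) S) (fun _ : Fin q => Gn F d (i + l)) z =
        Q (Sn F d (i + l) S)
          (fun (_ : Fin q) z => (1 / (d : ℝ) ^ l) * Gn F d i (ev (iter F l) z)) z := by
      refine ki_Q_congr _ ?_ z hz
      intro _ w hw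
      rw [add_comm i l]
      exact hGr l i w hw
    have q2 := Pool.Agent.H84.EQ.Q_smul (Sn F d (i + l) S) (1 / (d : ℝ) ^ l)
      (fun (_ : Fin q) z => Gn F d i (ev (iter F l) z)) z
    have q3 : Q (Sn F d (i + l) S) (fun (_ : Fin q) z => Gn F d i (ev (iter F l) z)) z =
        ((d : ℝ) ^ (p * l))⁻¹ * Q (pull (iter F l) (Sn F d i S))
          (fun (_ : Fin q) z => Gn F d i (ev (iter F l) z)) z := by
      refine ki_Q_S _ z _ ?_
      intro I J
      rw [(hD12 (p + q + 1) d F hd1 hF i l).2.2.2.1 p S z]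
      unfold Sn
      push_cast
      rfl
    rw [q1, q2, q3]
    ring
  have e2 : ((1 / (d : ℝ) ^ l) ^ q * ((d : ℝ) ^ (p * l))⁻¹) *
      (((d ^ l : ℕ) : ℝ) ^ ((p + q + 1) - 1)) = 1 := by
    have hN1 : (p + q + 1) - 1 = p + q := by omega
    rw [hN1]
    push_cast
    have h1 : ((d : ℝ) ^ l) ≠ 0 := by positivity
    rw [one_div, mul_comm p l, pow_mul (d : ℝ) l p, inv_pow, pow_add]
    field_simp
  have e3 : pair (fun z => f (ev (iter F l) z)) (Sn F d (i + l) S)
      (fun _ : Fin q => Gn F d (i + l)) = pair f (Sn F d i S) (fun _ : Fin q => Gn F d i) := by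
    rw [e1, g4, ← mul_assoc, e2, one_mul]
  obtain ⟨p', σ, a1, a2, aK, a3, a4⟩ :=
    ki_absorb2 hKH hKG (i := i) hd hF hG hell hf q p S hN hS hKS
  rw [e3, a4]
  have hpp : p' = p + q := by omega
  subst hpp
  have hm0 : mass q (om (p + q + 1) p) = mass 0 (om (p + q + 1) (p + q)) :=
    ((hD7 (p + q + 1) p).2 q hN).2
  have hσ1 : ProjForm (Sn F d i σ) := (hD12 (p + q + 1) d F hd1 hF 0 i).2.2.2.2 _ σ a2
  have hmσ : mass 0 σ = mass 0 (om (p + q + 1) (p + q)) := by rw [a3, hmS, hm0]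
  have hhit := hHit σ a2 aK hmσ
  have hN' : (p + q) + 0 + 1 = (p + q + 1) := by omega
  have hmσ' : mass 0 (Sn F d i σ) = mass 0 (om (p + q + 1) (p + q)) := by
    rw [(hP5 (p + q + 1) (p + q) 0 d σ hN' a2).2.1 F i hd1 hF, hmσ]
  have hLH : ∀ j : Fin 0, LH ((fun _ : Fin 0 => (1 : ℝ)) j)
      ((fun _ : Fin 0 => (ell : (Fin (p + q + 1) → ℂ) → ℝ)) j) := fun j => j.elim0
  have hPot : ∀ j : Fin 0, Pot ((fun _ : Fin 0 => (ell : (Fin (p + q + 1) → ℂ) → ℝ)) j) :=
    fun j => j.elim0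
  obtain ⟨i1, i2⟩ := hP1 (p + q + 1) (p + q) 0 (Sn F d i σ) (fun _ => ell) (fun _ => 1) hN' hσ1 hLH
  have hQ := (hP3 (p + q + 1) (p + q) 0 (Sn F d i σ) (fun _ => ell) hN' hσ1 hPot).1
  have ind1 : IntegrableOn (fun z => Set.indicator (CrL m F d r) (fun _ => (1 : ℝ)) z *
      Q (Sn F d i σ) (fun _ : Fin 0 => ell) z)
      {z : Fin (p + q + 1) → ℂ | 0 ≤ ell z ∧ ell z < 1} := by
    refine i1 (Set.indicator (CrL m F d r) (fun _ => (1 : ℝ))) 1
      (measurable_const.indicator (mk_CrL_meas m F d r)) ?_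
    intro z _
    by_cases hz : z ∈ CrL m F d r
    · rw [Set.indicator_of_mem hz, abs_one]
    · rw [Set.indicator_of_notMem hz, abs_zero]
      exact zero_le_one
  have ind2 : IntegrableOn (fun z => (1 : ℝ) *
      Q (Sn F d i σ) (fun _ : Fin 0 => ell) z) {z : Fin (p + q + 1) → ℂ | 0 ≤ ell z ∧ ell z < 1} :=
    i1 (fun _ => 1) 1 measurable_const (fun z _ => by rw [abs_one])
  have ind3 := i2 f hf.smooth.continuousOn
  have le1 : pair f (Sn F d i σ) (fun _ : Fin 0 => ell) ≤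
      a * pair (Set.indicator (CrL m F d r) (fun _ => 1)) (Sn F d i σ) (fun _ : Fin 0 => ell) +
        b * mass 0 (Sn F d i σ) := by
    unfold mass pair Iint
    rw [← integral_const_mul, ← integral_const_mul,
      ← integral_add (ind1.const_mul a) (ind2.const_mul b)]
    refine integral_mono_ae ind3 ((ind1.const_mul a).add (ind2.const_mul b)) ?_
    filter_upwards [ki_ne hN0 {z : Fin (p + q + 1) → ℂ | 0 ≤ ell z ∧ ell z < 1}] with z hz
    have hq := hQ z hz
    by_cases hc : z ∈ CrL m F d r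
    · simp only [Set.indicator_of_mem hc]
      have := hf1 z hz
      nlinarith
    · simp only [Set.indicator_of_notMem hc]
      have := hf2 z hz hc
      nlinarith
  rw [hmσ'] at le1
  rw [hm0]
  have le2 := mul_le_mul_of_nonneg_left hhit ha
  linarith

end Pool.Agent.H17.EM
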